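import Pool.Agent.Y772.NI.Dual

/-!
# The conjecture `n(L_p(μ)) = M_p` for real scalars fails for every `p ≠ 2`

Real scalars, `1 < p < ∞`, `p ≠ 2`.  `numRadius 𝕜 T`, `numIndex 𝕜 X` (the numerical radius of an
operator and the numerical index of a normed space over `𝕜`) are defined in
`Pool/Agent/Y772/NI/Base.lean` exactly as in the problem, `bigM p` (the number `M_p` of the problem)
in `Pool/Agent/Y772/NI/Crit.lean`.  We prove that `n(ℓ_p^2) = M_p`, but `n(ℓ_p(ι)) < M_p` for every
index set `ι` with at least three elements: the conjectured value is correct in dimension two and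
wrong in every other dimension.

*Plane.*  Let `u` be the point where `(t - t^{p-1}) / (1 + t^p)` is largest, `p > 2`.  The inequality
of the numerical radius at the four states `(1, ±u)`, `(u, ±1)` gives two linear inequalities for
the absolute values of the entries of a `2 × 2` matrix `T` with `v(T) ≤ M_p`; they imply that `|T|` is
dominated, entry by entry, by a convex combination of three explicit matrices of norm at most `1`.

*Dimension at least three.*  With `c = 2^{-1/p}` the operator `T₀` with matrix
`(0, 0, c; 0, 0, c; -1/(2c), -1/(2c), 0)` satisfies `‖T₀‖ = 1`, `v(T₀) = M_p`: with `w = c z`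
its form is `(w x* - w* x) + (w y* - w* y)`, a sum of two forms of the plane.  It attains `M_p` only at
states where `x, y ∈ {w/u, -uw}`.  The perturbation `ε (-a, -1; 1, a)` of the first two rows, with
`a = u² (1 - u^{2p-4}) / (1 - u^{2p})`, vanishes at all these states, so the numerical radius grows
at most by `C ε²`, while the norm grows at least by `c' ε^{1 + 2/p}`.  The case `p < 2` follows by
transposition.
-/

set_option autoImplicit false

open scoped ENNReal

namespace Pool.Agent.Results.MP_95d40a_an.RealConjecture

open Pool.Agent.Y772.NI (numIndex bigM)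

/-- **Real scalars.**  For every `1 < p < ∞`, `p ≠ 2`, the conjectured value `M_p` of the numerical
index is correct for `ℓ_p^2` and too large for every `ℓ_p(ι)` with at least three coordinates. -/
theorem result (p : ℝ≥0∞) [Fact (1 ≤ p)] (h1 : 1 < p) (htop : p ≠ ∞) (h2 : p ≠ 2) :
    numIndex ℝ (lp (fun _ : Fin 2 => ℝ) p) = bigM p.toReal ∧
    ∀ (ι : Type), (∃ i j k : ι, i ≠ j ∧ i ≠ k ∧ j ≠ k) →
      numIndex ℝ (lp (fun _ : ι => ℝ) p) < bigM p.toReal :=
  Pool.Agent.Y772.NI.real_all p h1 htop h2

end Pool.Agent.Results.MP_95d40a_an.RealConjecture
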